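import Pool.Agent.W133.DQ.StB

set_option autoImplicit false

open scoped ContDiff
open Set Filter Topology

namespace Pool.Agent.W485.DQ

open Pool.Agent.W133.DQ

/-! ## DQ-ROLLSH, DQ-ROLLMUL, DQ-ROLLEQ -/

/-- The unit translation. -/
noncomputable abbrev T1 : Equiv.Perm P2 := tr (1, 0)

theorem T1_apply (p : P2) : T1 p = (p.1 + 1, p.2) := by
  ext <;> simp

theorem rollsh : S_ROLLSH := by
  intro P hP hd F hF j
  refine ⟨hF.1, ?_⟩
  obtain ⟨k, hk⟩ := hF.2
  refine ⟨k + j.natAbs, fun p hp m n hm hn => ?_⟩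
  set S : Equiv.Perm P2 := tr ((j : ℝ), 0) with hS
  have hcomm : S⁻¹ * T1 = T1 * S⁻¹ := by
    have hc : Commute S T1 := by
      refine Equiv.ext fun q => ?_
      simp only [hS, T1, Equiv.Perm.mul_apply, tr_apply]
      exact add_right_comm _ _ _
    exact hc.inv_left.eq
  have h1 : S * P * S⁻¹ * tr (1, 0) = S * (P * T1) * S⁻¹ := by
    rw [mul_assoc (S * P), hcomm]; group
  rw [h1, conj_pow]
  have hj1 : (j.natAbs : ℤ) = |j| := Int.natCast_natAbs j
  have hm' : 0 ≤ (m : ℤ) + j := by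
    have := neg_abs_le j
    omega
  have hn' : 0 ≤ (n : ℤ) - j := by
    have := le_abs_self j
    omega
  obtain ⟨m', hm'2⟩ := Int.eq_ofNat_of_zero_le hm'
  obtain ⟨n', hn'2⟩ := Int.eq_ofNat_of_zero_le hn'
  have hkm : k ≤ m' := by
    have := neg_abs_le j
    omega
  have hkn : k ≤ n' := by
    have := le_abs_self j
    omega
  have hsum : m + n = m' + n' := by omega
  have e1 : (m' : ℝ) = m + j := by
    have : ((m' : ℤ) : ℝ) = ((m : ℤ) + j : ℤ) := by rw [hm'2]
    push_cast at this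
    exact this
  have e2 : (n' : ℝ) = n - j := by
    have : ((n' : ℤ) : ℝ) = ((n : ℤ) - j : ℤ) := by rw [hn'2]
    push_cast at this
    exact this
  have h2 := hk p hp m' n' hkm hkn
  rw [hsum]
  have e3 : (S⁻¹ : Equiv.Perm P2) (p.1 - m, p.2) = (p.1 - m', p.2) := by
    rw [hS, tr_inv_apply]
    ext
    · simp [e1]; ring
    · simp
  rw [Equiv.Perm.mul_apply, Equiv.Perm.mul_apply, e3, h2, hS, tr_apply]
  ext
  · simp [e2]; ring
  · simp

section steps

variable {P : Equiv.Perm P2}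

theorem step_lo (hd : ∀ p, |(P p).1 - p.1| ≤ 1 / 2) (z : P2) :
    z.1 + 1 / 2 ≤ ((P * T1) z).1 := by
  have := hd (T1 z)
  rw [Equiv.Perm.mul_apply]
  rw [abs_le] at this
  rw [T1_apply] at this ⊢
  simp only at this ⊢
  linarith [this.1]

theorem step_hi (hd : ∀ p, |(P p).1 - p.1| ≤ 1 / 2) (z : P2) :
    ((P * T1) z).1 ≤ z.1 + 3 / 2 := by
  have := hd (T1 z)
  rw [Equiv.Perm.mul_apply]
  rw [abs_le] at this
  rw [T1_apply] at this ⊢
  simp only at this ⊢
  linarith [this.2]

theorem step_snd (hP : P ∈ LP) (z : P2) : ((P * T1) z).2 = z.2 := by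
  rw [Equiv.Perm.mul_apply, hP.2, T1_apply]

theorem pow_lo (hd : ∀ p, |(P p).1 - p.1| ≤ 1 / 2) (z : P2) (j : ℕ) :
    z.1 + j / 2 ≤ (((P * T1) ^ j) z).1 := by
  induction j with
  | zero => simp
  | succ j ih =>
    rw [pow_succ', Equiv.Perm.mul_apply]
    have := step_lo hd (((P * T1) ^ j) z)
    have e : ((j + 1 : ℕ) : ℝ) = j + 1 := by push_cast; ring
    rw [e]
    linarith

theorem pow_snd (hP : P ∈ LP) (z : P2) (j : ℕ) : (((P * T1) ^ j) z).2 = z.2 := by
  induction j with
  | zero => simp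
  | succ j ih =>
    rw [pow_succ', Equiv.Perm.mul_apply, step_snd hP, ih]

theorem transl_right {a : ℝ} (hP : ∀ p : P2, a ≤ p.1 → P p = p) (z : P2) (hz : a - 1 ≤ z.1)
    (r : ℕ) : ((P * T1) ^ r) z = (z.1 + r, z.2) := by
  induction r with
  | zero => simp
  | succ r ih =>
    rw [pow_succ', Equiv.Perm.mul_apply, ih, Equiv.Perm.mul_apply, T1_apply]
    have hr : (0 : ℝ) ≤ r := Nat.cast_nonneg r
    rw [hP _ (by simp only; linarith)]
    push_cast
    ext
    · simp only; ring
    · rfl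

theorem transl_left {b : ℝ} (hP : ∀ p : P2, p.1 ≤ b → P p = p) (z : P2) (hz : z.1 ≤ b)
    (r : ℕ) : ((P * T1) ^ r) (z.1 - r, z.2) = z := by
  induction r with
  | zero => simp
  | succ r ih =>
    rw [pow_succ, Equiv.Perm.mul_apply, Equiv.Perm.mul_apply, T1_apply]
    have hr : (0 : ℝ) ≤ r := Nat.cast_nonneg r
    rw [hP _ (by push_cast; linarith)]
    have e : ((z.1 - ((r + 1 : ℕ) : ℝ), z.2) : P2).1 + 1 = z.1 - r := by
      push_cast; ring
    rw [e]
    exact ih

end steps

theorem equiv_int {G : P2 → P2} (hG : ∀ p : P2, G (p.1 + 1, p.2) = ((G p).1 + 1, (G p).2))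
    (q : P2) (j : ℤ) : G (q.1 + j, q.2) = ((G q).1 + j, (G q).2) := by
  induction j using Int.induction_on with
  | zero => simp
  | succ i ih =>
    have := hG (q.1 + (i : ℤ), q.2)
    simp only at this
    have e : q.1 + (((i : ℤ) + 1 : ℤ) : ℝ) = q.1 + ((i : ℤ) : ℝ) + 1 := by push_cast; ring
    rw [e, this, ih]
    ext
    · simp only; push_cast; ring
    · rfl
  | pred i ih =>
    have := hG (q.1 + ((-(i : ℤ) - 1 : ℤ) : ℝ), q.2)
    simp only at this
    have e : q.1 + ((-(i : ℤ) - 1 : ℤ) : ℝ) + 1 = q.1 + ((-(i : ℤ) : ℤ) : ℝ) := by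
      push_cast; ring
    rw [e, ih] at this
    have h1 := congrArg Prod.fst this
    have h2 := congrArg Prod.snd this
    simp only at h1 h2
    ext
    · simp only
      push_cast at h1 ⊢
      linarith
    · exact h2.symm

theorem rollmul : S_ROLLMUL := by
  intro P hP Q hQ hdP hdQ a haP haQ F G hF hG
  refine ⟨fun p => ?_, ?_⟩
  · simp only [Function.comp]
    rw [hF.1 p, hG.1 (F p)]
  obtain ⟨k, hk⟩ := hF.2
  obtain ⟨k', hk'⟩ := hG.2
  have hFlow : ∀ p : P2, |p.1| ≤ 2 → -2 - (k : ℝ) ≤ (F p).1 := by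
    intro p hp
    have h := hk p hp k k le_rfl le_rfl
    have h1 := pow_lo hdP (p.1 - k, p.2) (k + k)
    have h2 : (((P * T1) ^ (k + k)) (p.1 - k, p.2)).1 = (F p).1 + k := by
      have := congrArg Prod.fst h
      exact this
    rw [h2] at h1
    simp only at h1
    push_cast at h1
    have := (abs_le.mp hp).1
    linarith
  refine ⟨k + k' + 4 + ⌈|a|⌉₊, fun p hp m n hm hn => ?_⟩
  have hceil : |a| ≤ ⌈|a|⌉₊ := Nat.le_ceil _
  have hmR : (k : ℝ) + k' + 4 + ⌈|a|⌉₊ ≤ m := by exact_mod_cast hm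
  have hnR : (k : ℝ) + k' + 4 + ⌈|a|⌉₊ ≤ n := by exact_mod_cast hn
  have hk0 : (0 : ℝ) ≤ k := Nat.cast_nonneg k
  have hk0' : (0 : ℝ) ≤ k' := Nat.cast_nonneg k'
  have habs1 := le_abs_self a
  have habs2 := neg_abs_le a
  have hp1 := (abs_le.mp hp).1
  have hp2 := (abs_le.mp hp).2
  set z0 : P2 := (p.1 - m, p.2) with hz0
  set z : ℕ → P2 := fun j => ((P * T1) ^ j) z0 with hz
  have hzs : ∀ j, z (j + 1) = (P * T1) (z j) := by
    intro j
    simp only [hz]
    rw [pow_succ', Equiv.Perm.mul_apply]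
  have hex : ∃ j, a - 1 ≤ (z j).1 := by
    obtain ⟨j, hj⟩ := exists_nat_gt (2 * (a - 1 - z0.1))
    refine ⟨j, ?_⟩
    have := pow_lo hdP z0 j
    simp only [hz]
    linarith
  set i := Nat.find hex with hi
  have hi1 : a - 1 ≤ (z i).1 := Nat.find_spec hex
  have hlt : ∀ j < i, (z j).1 < a - 1 := fun j hj => not_le.mp (Nat.find_min hex hj)
  have hz00 : z 0 = z0 := by simp [hz]
  have hi0 : i ≠ 0 := by
    intro h0
    rw [h0, hz00, hz0] at hi1
    simp only at hi1
    linarith
  have hi2 : (z i).1 ≤ a + 1 / 2 := by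
    obtain ⟨i', hi'⟩ := Nat.exists_eq_succ_of_ne_zero hi0
    rw [hi', Nat.succ_eq_add_one, hzs]
    have h1 := step_hi hdP (z i')
    have h2 := hlt i' (by omega)
    linarith
  -- the point `z i`
  have hzi : z i = ((F p).1 + i - m, (F p).2) := by
    have h1 := hk p hp m (k + i) (by omega) (by omega)
    have h2 : ((P * T1) ^ (m + (k + i))) z0 = ((P * T1) ^ (m + k)) (z i) := by
      simp only [hz]
      rw [← Equiv.Perm.mul_apply, ← pow_add]
      congr 2
      ring
    have h3 := transl_right haP (z i) hi1 (m + k)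
    have h4 : ((z i).1 + ((m + k : ℕ) : ℝ), (z i).2) = ((F p).1 + ((k + i : ℕ) : ℝ), (F p).2) := by
      rw [← h3, ← h2]
      exact h1
    have h5 := congrArg Prod.fst h4
    have h6 := congrArg Prod.snd h4
    simp only at h5 h6
    ext
    · simp only
      push_cast at h5
      linarith
    · exact h6
  have hFp := hFlow p hp
  have himn : i ≤ m + n := by
    have h1 : (F p).1 + i - m ≤ a + 1 / 2 := by
      have := hi2
      rw [hzi] at this
      exact this
    have : (i : ℝ) ≤ (m + n : ℕ) := by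
      push_cast
      linarith
    exact_mod_cast this
  -- the orbit of `Q * P * T1`
  have horb : ∀ j ≤ i, ((Q * P * T1) ^ j) z0 = z j := by
    intro j
    induction j with
    | zero => intro _; simp [hz]
    | succ j ih =>
      intro hj
      rw [pow_succ', Equiv.Perm.mul_apply, ih (by omega), mul_assoc, Equiv.Perm.mul_apply, ← hzs]
      apply haQ
      rcases Nat.lt_or_ge (j + 1) i with h | h
      · have := hlt _ h
        linarith
      · have : j + 1 = i := le_antisymm hj h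
        rw [this]
        linarith
  have horb2 : ∀ (r : ℕ) (w : P2), a - 1 ≤ w.1 →
      ((Q * P * T1) ^ r) w = ((Q * T1) ^ r) w := by
    intro r w hw
    induction r with
    | zero => simp
    | succ r ih =>
      rw [pow_succ', Equiv.Perm.mul_apply, ih, pow_succ' (Q * T1), Equiv.Perm.mul_apply]
      have h1 := pow_lo hdQ w r
      have hr : (0 : ℝ) ≤ r := Nat.cast_nonneg r
      rw [mul_assoc, Equiv.Perm.mul_apply, Equiv.Perm.mul_apply, Equiv.Perm.mul_apply]
      congr 1
      apply haP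
      rw [T1_apply]
      simp only
      linarith
  have hmain : ((Q * P * T1) ^ (m + n)) z0 = ((Q * T1) ^ (m + n - i)) (z i) := by
    have : m + n = (m + n - i) + i := by omega
    conv_lhs => rw [this]
    rw [pow_add, Equiv.Perm.mul_apply, horb i le_rfl, horb2 _ _ hi1]
  change ((Q * P * T1) ^ (m + n)) z0 = _
  rw [hmain]
  -- use the roll of `Q`
  set l : ℤ := ⌊(F p).1⌋ with hl
  set q' : P2 := ((F p).1 - l, (F p).2) with hq'
  have hl1 : (l : ℝ) ≤ (F p).1 := Int.floor_le _
  have hl2 : (F p).1 < l + 1 := Int.lt_floor_add_one _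
  have hq'1 : |q'.1| ≤ 2 := by
    rw [hq']; simp only
    rw [abs_le]; constructor <;> linarith
  -- R large
  set M : ℤ := (m : ℤ) - i - l with hM
  obtain ⟨R, hR⟩ : ∃ R : ℕ, (k' : ℤ) ≤ M + R ∧ 0 ≤ M + R := by
    refine ⟨k' + M.natAbs, ?_, ?_⟩
    · have h1 : (M.natAbs : ℤ) = |M| := Int.natCast_natAbs M
      have := neg_abs_le M
      push_cast
      omega
    · have h1 : (M.natAbs : ℤ) = |M| := Int.natCast_natAbs M
      have := neg_abs_le M
      push_cast
      omega
  obtain ⟨M', hM'⟩ := Int.eq_ofNat_of_zero_le hR.2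
  have hM'k : k' ≤ M' := by omega
  have hnl : (k' : ℤ) ≤ n + l := by
    have h1 : (k' : ℝ) < ((n + l + 1 : ℤ) : ℝ) := by
      push_cast
      linarith
    have h2 : (k' : ℤ) < n + l + 1 := by exact_mod_cast h1
    omega
  obtain ⟨n', hn'⟩ := Int.eq_ofNat_of_zero_le (show (0 : ℤ) ≤ n + l by omega)
  have hn'k : k' ≤ n' := by omega
  have h1 : ((Q * T1) ^ R) ((z i).1 - R, (z i).2) = z i :=
    transl_left haQ (z i) (by linarith) R
  rw [← h1, ← Equiv.Perm.mul_apply, ← pow_add]
  have hexp : m + n - i + R = M' + n' := by omega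
  have hM'R : (M' : ℝ) = m - i - l + R := by
    have : ((M' : ℤ) : ℝ) = ((M + R : ℤ) : ℝ) := by rw [hM']
    rw [hM] at this
    push_cast at this
    exact this
  have hn'R : (n' : ℝ) = n + l := by
    have : ((n' : ℤ) : ℝ) = ((n + l : ℤ) : ℝ) := by rw [hn']
    push_cast at this
    exact this
  have hpt : (((z i).1 - R, (z i).2) : P2) = (q'.1 - M', q'.2) := by
    rw [hzi, hq', hM'R]
    ext
    · simp only; ring
    · rfl
  rw [hexp, hpt, hk' q' hq'1 M' n' hM'k hn'k]
  have hGq := equiv_int hG.1 q' l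
  have hFq : ((q'.1 + l, q'.2) : P2) = F p := by
    rw [hq']
    ext
    · simp
    · rfl
  rw [hFq] at hGq
  simp only [Function.comp]
  rw [hGq, hn'R]
  ext
  · simp only; ring
  · rfl

end Pool.Agent.W485.DQ
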