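import Pool.Agent.W485.DQ.Roll

set_option autoImplicit false

open scoped ContDiff
open Set Filter Topology

namespace Pool.Agent.W485.DQ

open Pool.Agent.W133.DQ

/-! ## DQ-ROLLEQ -/

section conj

/-- Hypotheses on `A = P T`. -/
structure HA (A : Equiv.Perm P2) (R : ℝ) : Prop where
  lo : ∀ p, p.1 + 1 / 2 ≤ (A p).1
  left : ∀ p : P2, p.1 ≤ -R → A (p.1 - 1, p.2) = p

theorem HA.pow_lo {A : Equiv.Perm P2} {R : ℝ} (h : HA A R) (z : P2) (j : ℕ) :
    z.1 + j / 2 ≤ ((A ^ j) z).1 := by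
  induction j with
  | zero => simp
  | succ j ih =>
    rw [pow_succ', Equiv.Perm.mul_apply]
    have := h.lo ((A ^ j) z)
    have e : ((j + 1 : ℕ) : ℝ) = j + 1 := by push_cast; ring
    rw [e]
    linarith

theorem HA.inv_left {A : Equiv.Perm P2} {R : ℝ} (h : HA A R) (p : P2) (hp : p.1 ≤ -R) :
    A⁻¹ p = (p.1 - 1, p.2) := by
  rw [Equiv.Perm.inv_eq_iff_eq, h.left p hp]

theorem HA.inv_pow_le {A : Equiv.Perm P2} {R : ℝ} (h : HA A R) (p : P2) (n : ℕ) :
    (((A ^ n)⁻¹) p).1 ≤ p.1 - n / 2 := by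
  have := h.pow_lo (((A ^ n)⁻¹) p) n
  rw [show (A ^ n) (((A ^ n)⁻¹) p) = p from (A ^ n).apply_symm_apply p] at this
  linarith

/-- Number of steps used at `p`. -/
noncomputable def NN (R : ℝ) (p : P2) : ℕ := ⌈2 * (p.1 + R)⌉₊

theorem NN_spec (R : ℝ) (p : P2) : p.1 - (NN R p : ℝ) / 2 ≤ -R := by
  have := Nat.le_ceil (2 * (p.1 + R))
  unfold NN
  linarith

/-- The conjugating map. -/
noncomputable def hm (A B : Equiv.Perm P2) (R : ℝ) (p : P2) : P2 :=
  (A ^ NN R p) (((B ^ NN R p)⁻¹) p)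

variable {A B : Equiv.Perm P2} {R : ℝ}

theorem stable_step (hA : HA A R) (hB : HA B R) (p : P2) (n : ℕ) (hn : p.1 - (n : ℝ) / 2 ≤ -R) :
    (A ^ (n + 1)) (((B ^ (n + 1))⁻¹) p) = (A ^ n) (((B ^ n)⁻¹) p) := by
  set q := ((B ^ n)⁻¹) p with hq
  have hq1 : q.1 ≤ -R := (hB.inv_pow_le p n).trans hn
  have h1 : ((B ^ (n + 1))⁻¹) p = (q.1 - 1, q.2) := by
    rw [pow_succ, mul_inv_rev, Equiv.Perm.mul_apply, ← hq, hB.inv_left q hq1]
  rw [h1, pow_succ, Equiv.Perm.mul_apply, hA.left q hq1]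

theorem stable (hA : HA A R) (hB : HA B R) (p : P2) (n : ℕ) (hn : NN R p ≤ n) :
    hm A B R p = (A ^ n) (((B ^ n)⁻¹) p) := by
  induction n, hn using Nat.le_induction with
  | base => rfl
  | succ n hn ih =>
    rw [ih, stable_step hA hB p n]
    have h1 := NN_spec R p
    have h2 : (NN R p : ℝ) ≤ n := by exact_mod_cast hn
    linarith

theorem hm_inv (hA : HA A R) (hB : HA B R) (p : P2) : hm B A R (hm A B R p) = p := by
  obtain ⟨N, hN1, hN2⟩ : ∃ N, NN R p ≤ N ∧ NN R (hm A B R p) ≤ N :=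
    ⟨_, le_max_left _ _, le_max_right _ _⟩
  rw [stable hB hA _ N hN2, stable hA hB p N hN1]
  simp

/-- The conjugating permutation. -/
noncomputable def hE (hA : HA A R) (hB : HA B R) : Equiv.Perm P2 where
  toFun := hm A B R
  invFun := hm B A R
  left_inv := fun p => hm_inv hA hB p
  right_inv := fun p => hm_inv hB hA p

theorem smD_pow {f : Equiv.Perm P2} (hf : SmD f) (n : ℕ) : SmD (f ^ n) := by
  induction n with
  | zero => simpa using smD_one
  | succ n ih => rw [pow_succ]; exact smD_mul ih hf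

theorem hm_contDiff (hA : HA A R) (hB : HA B R) (sA : SmD A) (sB : SmD B) :
    ContDiff ℝ ∞ (hm A B R) := by
  rw [contDiff_iff_contDiffAt]
  intro p0
  set N := ⌈2 * (p0.1 + 1 + R)⌉₊ with hN
  have hsm : ContDiff ℝ ∞ (fun p => (A ^ N) (((B ^ N)⁻¹) p)) :=
    (smD_pow sA N).1.comp (smD_pow sB N).2
  refine hsm.contDiffAt.congr_of_eventuallyEq ?_
  have hev : ∀ᶠ p : P2 in 𝓝 p0, p.1 < p0.1 + 1 := by
    have : Continuous (fun p : P2 => p.1) := continuous_fst
    exact this.continuousAt.eventually_lt continuousAt_const (by linarith)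
  filter_upwards [hev] with p hp
  refine stable hA hB p N ?_
  unfold NN
  exact Nat.ceil_mono (by linarith)

theorem hE_smD (hA : HA A R) (hB : HA B R) (sA : SmD A) (sB : SmD B) : SmD (hE hA hB) :=
  ⟨hm_contDiff hA hB sA sB, hm_contDiff hB hA sB sA⟩

theorem hE_conj (hA : HA A R) (hB : HA B R) : hE hA hB * B = A * hE hA hB := by
  refine Equiv.ext fun p => ?_
  rw [Equiv.Perm.mul_apply, Equiv.Perm.mul_apply]
  change hm A B R (B p) = A (hm A B R p)
  set n := max (NN R p) (NN R (B p)) with hn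
  have h1 := stable hA hB p n (le_max_left _ _)
  have h2 := stable hA hB (B p) (n + 1) ((le_max_right _ _).trans (Nat.le_succ _))
  rw [h1, h2, pow_succ B, mul_inv_rev, Equiv.Perm.mul_apply, ← Equiv.Perm.mul_apply A,
    ← pow_succ']
  congr 1
  rw [← Equiv.Perm.mul_apply, ← Equiv.Perm.mul_apply]
  congr 1
  rw [← mul_inv_rev, ← pow_succ, pow_succ', mul_inv_rev, inv_mul_cancel_right]

end conj

theorem smD_tr (v : P2) : SmD (tr v) := by
  refine ⟨?_, ?_⟩
  · simp only [tr_apply]; fun_prop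
  · simp only [tr_inv_apply]; fun_prop

theorem exists_R {P : Equiv.Perm P2} (hP : P ∈ DC) :
    ∃ R : ℝ, 0 ≤ R ∧ ∀ p : P2, (R ≤ |p.1| ∨ R ≤ |p.2|) → P p = p := by
  obtain ⟨R, hR⟩ := hP.2
  refine ⟨max R 0 + 1, by positivity, fun p hp => hR p ?_⟩
  have h1 : |p.1| ≤ ‖p‖ := by
    rw [Prod.norm_def]; exact le_max_left _ _
  have h2 : |p.2| ≤ ‖p‖ := by
    rw [Prod.norm_def]; exact le_max_right _ _
  have h3 := le_max_left R 0
  rcases hp with h | h <;> linarith

theorem rolleq (hconj : S_CONJL) : S_ROLLEQ := by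
  intro L hL P hP Q hQ hdP hdQ F hFP hFQ
  obtain ⟨RP, hRP0, hRP⟩ := exists_R hP.1
  obtain ⟨RQ, hRQ0, hRQ⟩ := exists_R hQ.1
  set R := max RP RQ with hR
  have hR0 : 0 ≤ R := hRP0.trans (le_max_left _ _)
  have hPf : ∀ p : P2, (R ≤ |p.1| ∨ R ≤ |p.2|) → P p = p := fun p hp =>
    hRP p (hp.imp (fun h => (le_max_left _ _).trans h) (fun h => (le_max_left _ _).trans h))
  have hQf : ∀ p : P2, (R ≤ |p.1| ∨ R ≤ |p.2|) → Q p = p := fun p hp =>
    hRQ p (hp.imp (fun h => (le_max_right _ _).trans h) (fun h => (le_max_right _ _).trans h))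
  have mkHA : ∀ P' : Equiv.Perm P2, (∀ p, |(P' p).1 - p.1| ≤ 1 / 2) →
      (∀ p : P2, (R ≤ |p.1| ∨ R ≤ |p.2|) → P' p = p) → HA (P' * T1) R := by
    intro P' hd hf
    refine ⟨step_lo hd, fun p hp => ?_⟩
    rw [Equiv.Perm.mul_apply, T1_apply]
    have : (((p.1 - 1, p.2) : P2).1 + 1, ((p.1 - 1, p.2) : P2).2) = p := by
      ext
      · simp
      · rfl
    rw [this]
    refine hf p (Or.inl ?_)
    have := neg_abs_le p.1
    linarith
  have hA := mkHA P hdP hPf
  have hB := mkHA Q hdQ hQf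
  set A := P * T1 with hAd
  set B := Q * T1 with hBd
  have sA : SmD A := smD_mul hP.1.1 (smD_tr _)
  have sB : SmD B := smD_mul hQ.1.1 (smD_tr _)
  set h := hE hA hB with hh
  have hsm : SmD h := hE_smD hA hB sA sB
  have hfun : ∀ p, h p = hm A B R p := fun p => rfl
  -- identity for `p.1 ≤ -R`
  have hleft : ∀ p : P2, p.1 ≤ -R → h p = p := by
    intro p hp
    have hN : NN R p = 0 := by
      unfold NN
      rw [Nat.ceil_eq_zero]
      linarith
    rw [hfun]
    unfold hm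
    rw [hN]
    simp
  -- identity for large second coordinate
  have hvert : ∀ p : P2, R ≤ |p.2| → h p = p := by
    intro p hp
    have key : ∀ (P' : Equiv.Perm P2), (∀ p : P2, (R ≤ |p.1| ∨ R ≤ |p.2|) → P' p = p) →
        ∀ (n : ℕ) (q : P2), R ≤ |q.2| → ((P' * T1) ^ n) q = (q.1 + n, q.2) := by
      intro P' hf n q hq
      induction n with
      | zero => simp
      | succ n ih =>
        rw [pow_succ', Equiv.Perm.mul_apply, ih, Equiv.Perm.mul_apply, T1_apply,
          hf (q.1 + n + 1, q.2) (Or.inr hq)]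
        ext
        · simp only
          have e : ((n + 1 : ℕ) : ℝ) = n + 1 := by push_cast; ring
          rw [e]; ring
        · rfl
    rw [hfun]
    unfold hm
    set n := NN R p
    have h1 : ((B ^ n)⁻¹) p = (p.1 - n, p.2) := by
      rw [Equiv.Perm.inv_eq_iff_eq, hBd, key Q hQf n (p.1 - n, p.2) hp]
      ext
      · simp
      · rfl
    rw [h1, hAd, key P hPf n (p.1 - n, p.2) hp]
    ext
    · simp
    · rfl
  -- identity for `R ≤ p.1`
  have hright : ∀ p : P2, R ≤ p.1 → h p = p := by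
    intro p hp
    obtain ⟨kP, hkP⟩ := hFP.2
    obtain ⟨kQ, hkQ⟩ := hFQ.2
    set k := max kP kQ with hk
    set N := max (NN R p) ⌈2 * (p.1 + k + 1)⌉₊ with hN
    have hst := stable hA hB p N (le_max_left _ _)
    rw [hfun, hst]
    set q := ((B ^ N)⁻¹) p with hq
    have hBq : (B ^ N) q = p := (B ^ N).apply_symm_apply p
    have hq1 : q.1 ≤ -(k : ℝ) - 1 := by
      have h1 := hB.inv_pow_le p N
      have h2 : (⌈2 * (p.1 + k + 1)⌉₊ : ℝ) ≤ N := by exact_mod_cast le_max_right _ _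
      have h3 := Nat.le_ceil (2 * (p.1 + k + 1))
      rw [← hq] at h1
      linarith
    have hk0 : (0 : ℝ) ≤ k := Nat.cast_nonneg k
    have hfl : (k : ℤ) ≤ -⌊q.1⌋ := by
      have h1 : ⌊q.1⌋ ≤ -(k : ℤ) := by
        have h2 : (⌊q.1⌋ : ℝ) ≤ q.1 := Int.floor_le _
        have h3 : ((⌊q.1⌋ : ℤ) : ℝ) ≤ ((-(k : ℤ) : ℤ) : ℝ) := by push_cast; linarith
        exact_mod_cast h3
      omega
    obtain ⟨m, hm⟩ := Int.eq_ofNat_of_zero_le (show (0 : ℤ) ≤ -⌊q.1⌋ by omega)
    have hkm : k ≤ m := by omega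
    have hmR : (m : ℝ) = -(⌊q.1⌋ : ℝ) := by
      have : ((m : ℤ) : ℝ) = ((-⌊q.1⌋ : ℤ) : ℝ) := by rw [hm]
      push_cast at this
      exact this
    set q' : P2 := (q.1 + m, q.2) with hq'
    have hq'1 : |q'.1| ≤ 2 := by
      have h1 : (⌊q.1⌋ : ℝ) ≤ q.1 := Int.floor_le _
      have h2 : q.1 < ⌊q.1⌋ + 1 := Int.lt_floor_add_one _
      rw [hq']; simp only
      rw [hmR, abs_le]
      constructor <;> linarith
    have hqq : ((q'.1 - m, q'.2) : P2) = q := by
      rw [hq']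
      ext
      · simp
      · rfl
    -- choose `r`
    obtain ⟨r, n, hrn, hkn⟩ : ∃ r n : ℕ, N + r = m + n ∧ k ≤ n :=
      ⟨m + k, N + k, by omega, by omega⟩
    have h1 := hkP q' hq'1 m n ((le_max_left _ _).trans hkm) ((le_max_left _ _).trans hkn)
    have h2 := hkQ q' hq'1 m n ((le_max_right _ _).trans hkm) ((le_max_right _ _).trans hkn)
    rw [hqq, ← hrn] at h1 h2
    change (A ^ (N + r)) q = _ at h1
    change (B ^ (N + r)) q = _ at h2
    rw [← h2, add_comm, pow_add, pow_add, Equiv.Perm.mul_apply, Equiv.Perm.mul_apply, hBq] at h1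
    have hPr : ∀ p : P2, R ≤ p.1 → P p = p := fun p hp => hPf p (Or.inl (hp.trans (le_abs_self _)))
    have hQr : ∀ p : P2, R ≤ p.1 → Q p = p := fun p hp => hQf p (Or.inl (hp.trans (le_abs_self _)))
    have h3 : (B ^ r) p = (A ^ r) p := by
      rw [hAd, hBd, transl_right hPr p (by linarith) r, transl_right hQr p (by linarith) r]
    rw [h3] at h1
    exact (A ^ r).injective h1
  have hDC : h ∈ DC := by
    refine ⟨hsm, R, fun p hp => ?_⟩
    rw [Prod.norm_def] at hp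
    rcases lt_max_iff.mp hp with h1 | h1
    · rcases le_abs.mp h1.le with h2 | h2
      · exact hright p h2
      · exact hleft p (by linarith)
    · exact hvert p h1.le
  have hcj := hE_conj hA hB
  rw [← hh, hAd, hBd] at hcj
  -- `P = h * Q * (T1 * h⁻¹ * T1⁻¹)`
  have hPeq : P = h * Q * (T1 * h⁻¹ * T1⁻¹) := by
    have : P * T1 * h = h * (Q * T1) := hcj.symm
    calc P = (P * T1 * h) * h⁻¹ * T1⁻¹ := by group
      _ = h * (Q * T1) * h⁻¹ * T1⁻¹ := by rw [this]
      _ = _ := by group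
  have hinv : h⁻¹ ∈ DC := DC.inv_mem hDC
  obtain ⟨hc1, hc2⟩ := (hconj L hL).1 h⁻¹ hinv (1, 0)
  have hL1 : L 1 = 0 := by
    have := hL 1 DC.one_mem 1 DC.one_mem
    rw [mul_one] at this
    linarith
  have hLinv : L h⁻¹ = - L h := by
    have := hL h hDC h⁻¹ hinv
    rw [mul_inv_cancel, hL1] at this
    linarith
  have e1 := hL (h * Q) (DC.mul_mem hDC hQ.1) (T1 * h⁻¹ * T1⁻¹) hc1
  have e2 := hL h hDC Q hQ.1
  rw [← hPeq] at e1
  rw [e1, e2, hc2, hLinv]
  ring

end Pool.Agent.W485.DQ
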